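import Pool.Agent.V5helper84.SR.Arith

/-!
# The Mumford-Tate conjecture for abelian varieties with a Frobenius element in almost all slope types
of all CM fields

Let `A` be an abelian variety over a number field (or a finitely generated field of characteristic
zero), of any dimension and with arbitrary endomorphisms, which has good reduction at some place `v`,
with a residue field of `p ^ a` elements. Suppose that the characteristic polynomial of the Frobenius
element at `v` is the product of the minimal polynomials of Weil numbers `π i` that generate CM fields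
`K i` of degree `2 g i` (`HasFrobenius`); so `dim A = ∑ i, g i`. **Nothing is assumed about the fields
`K i`**: they are arbitrary CM fields, with arbitrary Galois groups and subfields, and they may be
related in any way (they can even be isomorphic).

We fix an isomorphism `ν` of the algebraic closure of `ℚ_p` with `ℂ`; it defines a `p`-adic valuation
of `ℂ`, with the value one at `p`. Let `M i` be a function with real values on the complex embeddings
of `K i`, invariant under complex conjugation (the weights). A CM type `Φ i` of `K i` (a choice of one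
element out of each complex conjugate pair of embeddings; there are `2 ^ (g i)` types), `M i` and a
real number `κ ≠ 0` prescribe the slopes `(a + κ M) / 2` (at the embeddings in `Φ i`) and
`(a - κ M) / 2` (outside of `Φ i`) of a Weil number in `K i` (`IsOfType`). If `p` splits completely in
`K i` then, by Honda and Tate, all slopes with rational values between `0` and `a` that are symmetric
in this way occur for abelian varieties over finite fields. The case `M = 1`, `κ = a` is the case of
ordinary reduction.

There are `2 ^ (∑ i, g i)` families of CM types `Φ i` of the fields `K i`. A family is exceptional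
(`exceptionalFamilies ν K M`) if the following statement (`Holds`) is false for it: the Mumford-Tate
conjecture is true for all abelian varieties `A` as above with Weil numbers `π i` of the slope types
`Φ i`, and all prime numbers `ℓ`.

**Theorem.** Let `m` be a number with `8 m ≤ #{φ | M i φ ≠ 0} + 7` for all `i`; if all weights are
different from zero this is `m = ⌈g / 4⌉` for the smallest `g = g i`. Then the exceptional families are a
proportion of at most `#I * (2 ∑ i, g i) ^ 3 / 2 ^ m` of all families.

So for one field `K` of degree `2 g`, `M ≠ 0`, at most `(2 g) ^ 3 * 2 ^ (- g / 4)` of all types are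
exceptional: **this is an exponentially small proportion, for all CM fields.** The known results
(starting files `AllCMFields`, `AlmostAllFrobeniusTypes`, and `HalfOfAllTypes`) show the stronger
property that all Tate classes are generated by divisor classes, which is true for those types for
which there are no relations at all between the conjugates of the Weil numbers; this is false for one
half of all types of a multiquadratic field, for instance, and their proportion of exceptions is never
better than `c g ^ (-1 / 2)` if `K` contains an imaginary quadratic field. They need pairwise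
independent fields `K i`, and `AllCMFields` gives nothing for many fields with many subfields or
without a large prime factor of the degree. Here the Weil numbers may satisfy many relations, the
Mumford-Tate group and the Frobenius torus can be small, and there can be exceptional Hodge classes.

The abelian variety (`IsRealization`): `A` is isogenous to a product of abelian varieties `A_j`
(`j ∈ J`; there can be only one). `V` is the sum of the spaces `V j = H^1(A_j, ℚ_ℓ)`, written as
`ℚ_ℓ ^ (n j)`, with the actions `ρ j` of the Galois group `Γ`, and `𝔤` is the Lie algebra of the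
Mumford-Tate group of `A`, over `ℚ_ℓ`. By Deligne it has the properties which are collected in
`IsMotivic` (starting library): it is a Lie algebra which respects the decomposition, it is reductive,
it consists of all endomorphisms which kill all tensors killed by `𝔤`, and the tensors killed by `𝔤`
(the `ℚ_ℓ`-combinations of Hodge classes) are Tate tensors, that is, fixed by an open subgroup of `Γ`.
It is normalized by `Γ`. The form `ω` is given by a polarization: it is nondegenerate, `Γ` acts by
similitudes with the multiplier `χ`, and the elements of `𝔤` are infinitesimal similitudes. `V` is a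
semisimple representation and the Tate classes in `End V` are Hodge classes, by Faltings. The
Mumford-Tate conjecture for the centre is a theorem (Serre, Vasiu, Ullmo-Yafaev); if the centre of `𝔤`
consists of the homotheties (no simple factor of `A` is of type IV), the theorem of Weil for one
Frobenius element is sufficient.

The Mumford-Tate conjecture (`TateIsHodge`): the Tate tensors, in any number of variables in `V` and
its dual space, are exactly the tensors killed by `𝔤`; equivalently, the identity component of the
`ℓ`-adic monodromy group is the Mumford-Tate group.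

**Proof.** (1) *One Frobenius element.* Let the characteristic polynomial of a Frobenius element `γ` be
generic in the following sense: the roots are simple, the quotients of different roots are not roots
of unity, and `x / y = z / w` for roots `x ≠ y`, `z`, `w` only if `(z, w) = (x, y)` or
`(z, w) = (q / y, q / x)`. Then `γ` separates the roots of `𝔤`: the generalized eigenspaces `𝔤_μ` of the
conjugation by `γ` on `𝔤 ⊗ ℂ` are of dimension at most one for `μ ≠ 1` and zero for roots of unity
`μ ≠ 1`, and `𝔤_1` is a Cartan algebra. The Lie algebra `L` of the monodromy group is stable under `γ`, so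
it is normalized by `𝔤_1`, and by the theorem of Faltings and the theorem on the centre it contains
`𝔤_1`. Since it has the same commutant as `𝔤` it is equal to `𝔤`, by Borel and de Siebenthal (see
`MP_bbcdf5_ag.SeparatedRoots`). (2) *Counting.* If the polynomial is not generic then there are
embeddings `x ≠ y`, `z`, `w`, with a nontrivial relation `e (σ x) + e (σ w) = e (σ z) + e (σ y)` for all
automorphisms `σ` of `ℂ`, where `e = ± M` are the signed weights. There is a pair of embeddings
`t`, `conj t` whose coefficients do not cancel; for each embedding `s` with `M s ≠ 0` we choose `σ` with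
`σ t = s`. The relation for this `σ` is destroyed if the type is changed at `s`, and it depends only on
the type at the four pairs of `σ x`, `σ y`, `σ z`, `σ w`. So one finds `m` embeddings `s` such that the
relation for each is not changed if the type is changed at the later ones, and at most one of `2 ^ m`
types satisfies all `m` relations.
-/

open NumberField Module Polynomial

noncomputable section

namespace Pool.Agent.Results.MP_33b3f9_ag.AlmostAllSlopeTypes

open Pool.Agent.Y114.TF Pool.Agent.Y114.RM Pool.Agent.H204R3.GP Pool.Agent.R913.Adj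

/-! ### Weil numbers and their slopes -/

/-- A CM type on `E`: it contains exactly one embedding out of each pair of complex conjugate
embeddings. -/
def IsCMType {E : Type} [Field E] (Φ : Set (E →+* ℂ)) : Prop :=
  ∀ φ : E →+* ℂ, φ ∈ Φ ↔ ComplexEmbedding.conjugate φ ∉ Φ

open Classical in
/-- The slope of `x` at the complex embedding `φ` of `E` is `(b + c M φ) / 2` if `φ ∈ Φ`, and
`(b - c M φ) / 2` otherwise (for the `p`-adic valuation of `ℂ` given by `ν`, with `v (p) = 1`). -/
def HasSlopes {p : ℕ} [Fact p.Prime] (ν : PadicAlgCl p ≃+* ℂ) {E : Type} [Field E]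
    (M : (E →+* ℂ) → ℝ) (Φ : Set (E →+* ℂ)) (b c : ℝ) (x : E) : Prop :=
  ∀ φ : E →+* ℂ, 2 * (- Real.logb p ‖ν.symm (φ x)‖) - b = c * (if φ ∈ Φ then M φ else - M φ)

/-- The numbers `π i` are Weil numbers for `p ^ a` that generate the CM fields `K i`. The slope of `π i`
at the complex embedding `φ` of `K i` is `(a + κ M) / 2` if `φ` belongs to the type `Φ i`, and
`(a - κ M) / 2` otherwise, for the weight `M = M i φ` and a real number `κ ≠ 0`. -/
structure IsOfType {p : ℕ} [Fact p.Prime] (ν : PadicAlgCl p ≃+* ℂ) (a : ℕ) {I : Type}
    (K : I → Type) [∀ i, Field (K i)] [∀ i, NumberField (K i)] [∀ i, IsCMField (K i)]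
    (M : ∀ i, (K i →+* ℂ) → ℝ) (Φ : ∀ i, Set (K i →+* ℂ)) (π : ∀ i, K i) : Prop where
  gen : ∀ i, IntermediateField.adjoin ℚ {π i} = ⊤
  weil : ∀ i, π i * IsCMField.complexConj (K i) (π i) = (p : K i) ^ a
  slopes : ∃ κ : ℝ, κ ≠ 0 ∧ ∀ i, HasSlopes ν (M i) (Φ i) a κ (π i)

/-! ### The abelian variety -/

section tate

variable {k V Γ : Type} [Field k] [AddCommGroup V] [Module k V] [Group Γ]
  (ρ : Representation k Γ V) (𝔤 : Submodule k (End k V))

/-- The Tate tensors are the tensors killed by `𝔤`. -/
def TateIsHodge : Prop :=
  ∀ (m : ℕ) (φ : Tensor k V m), TateTensor ρ φ ↔ ∀ X ∈ 𝔤, KillsTensor X φ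

/-- An endomorphism which commutes with a subgroup of finite index of `Γ` commutes with `𝔤`. -/
def EndTate : Prop := ∀ P : End k V,
  (∃ Δ : Subgroup Γ, Δ.FiniteIndex ∧ ∀ γ ∈ Δ, P * ρ γ = ρ γ * P) → ∀ X ∈ 𝔤, X * P = P * X

/-- The central elements of `𝔤` kill all Tate tensors. -/
def CentreKills : Prop := ∀ z ∈ 𝔤, (∀ X ∈ 𝔤, z * X = X * z) →
  ∀ (m : ℕ) (φ : Tensor k V m), TateTensor ρ φ → KillsTensor z φ

/-- The central elements of `𝔤` are the homotheties. -/
def Homotheties : Prop := ∀ z ∈ 𝔤, (∀ X ∈ 𝔤, z * X = X * z) → ∃ c : k, ∀ x, z x = c • x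

/-- The Lie algebra `𝔤` is normalized by `Γ`. -/
def Normalized : Prop := ∀ (γ : Γ), ∀ X ∈ 𝔤, ρ γ * X * ρ γ⁻¹ ∈ 𝔤

/-- `ω` is a polarization form: it is nondegenerate, `Γ` acts by similitudes with the multiplier `χ`,
and the elements of `𝔤` are infinitesimal similitudes. -/
structure Polarization (χ : Γ →* k) (ω : V →ₗ[k] V →ₗ[k] k) : Prop where
  nondegenerate : ∀ u, (∀ v, ω u v = 0) → u = 0
  similitudes : ∀ s u v, ω (ρ s u) (ρ s v) = χ s * ω u v
  infinitesimal : ∀ X ∈ 𝔤, ∃ c : k, ∀ u v, ω (X u) v + ω u (X v) = c * ω u v

end tate

section props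

variable (Γ : Type) [Group Γ] {J : Type} (n : J → ℕ) (ℓ : ℕ) [Fact ℓ.Prime]

/-- Representations of `Γ` on the spaces `ℚ_ℓ ^ (n j)`. -/
abbrev Reps : Type := ∀ j, Representation ℚ_[ℓ] Γ (Fin (n j) → ℚ_[ℓ])

/-- Spaces of endomorphisms of the direct sum of the spaces `ℚ_ℓ ^ (n j)`. -/
abbrev EndSpace : Type := Submodule ℚ_[ℓ] (End ℚ_[ℓ] (∀ j, Fin (n j) → ℚ_[ℓ]))

/-- Bilinear forms on the direct sum of the spaces `ℚ_ℓ ^ (n j)`. -/
abbrev Form : Type := (∀ j, Fin (n j) → ℚ_[ℓ]) →ₗ[ℚ_[ℓ]] (∀ j, Fin (n j) → ℚ_[ℓ]) →ₗ[ℚ_[ℓ]] ℚ_[ℓ]

variable {Γ n ℓ} (ρ : Reps Γ n ℓ) (𝔤 : EndSpace n ℓ)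

/-- The representations are continuous. -/
def Conts [TopologicalSpace Γ] : Prop := ∀ j, Continuous fun g => LinearMap.toMatrix' (ρ j g)

/-- Some element of `Γ` acts purely of weight one: its characteristic polynomials are
rational, with all roots of absolute value `q ^ (1 / 2)` for some `q > 1`. -/
def Pure : Prop := ∃ γ : Γ, ActsPurely ρ (fun _ => 1) γ

variable [Fintype J] [DecidableEq J]

/-- The data come from an abelian variety `A` over a finitely generated field of characteristic zero:
the cohomology `V` in degree one with the Galois action `ρ`, the Lie algebra `𝔤` of the Mumford-Tate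
group (with its known properties, `IsMotivic`), the multiplier `χ` and the form `ω` given by a
polarization. The properties `semisimple` and `endomorphisms` are theorems of Faltings, `centre` is
the theorem on the centre (or the theorem of Weil, if the centre consists of the homotheties). -/
structure IsRealization [TopologicalSpace Γ] (χ : Γ →* ℚ_[ℓ]) (ω : Form n ℓ) : Prop where
  continuous : Conts ρ
  mumfordTate : IsMotivic ρ 𝔤
  normalized : Normalized (sumRep ρ) 𝔤
  polarization : Polarization (sumRep ρ) 𝔤 χ ω
  semisimple : FiniteIndexSemisimple (sumRep ρ)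
  endomorphisms : EndTate (sumRep ρ) 𝔤
  centre : CentreKills (sumRep ρ) 𝔤 ∨ (Pure ρ ∧ Homotheties 𝔤)

/-- Some element `γ` of the Galois group is a Frobenius element: its multiplier is `p ^ a`, and its
characteristic polynomial is the product of the minimal polynomials of the Weil numbers `π i`. -/
def HasFrobenius (χ : Γ →* ℚ_[ℓ]) (p a : ℕ) {I : Type} [Fintype I] {K : I → Type}
    [∀ i, Field (K i)] [∀ i, NumberField (K i)] (π : ∀ i, K i) : Prop :=
  ∃ γ : Γ, χ γ = (p : ℚ_[ℓ]) ^ a ∧
    (sumRep ρ γ).charpoly = (∏ i, minpoly ℚ (π i)).map (algebraMap ℚ ℚ_[ℓ])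

/-- The Mumford-Tate conjecture (see `TateIsHodge`). -/
def MumfordTate : Prop := TateIsHodge (sumRep ρ) 𝔤

end props

/-! ### The theorem -/

/-- The Mumford-Tate conjecture for the abelian varieties with a Frobenius element whose characteristic
polynomial is the product of the minimal polynomials of Weil numbers `π i` for `p ^ a` with the slope
types `Φ i`, `M i`, for the prime number `ℓ`. -/
def HoldsAt {p : ℕ} [Fact p.Prime] (ν : PadicAlgCl p ≃+* ℂ) {I : Type} [Fintype I]
    (K : I → Type) [∀ i, Field (K i)] [∀ i, NumberField (K i)] [∀ i, IsCMField (K i)]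
    (M : ∀ i, (K i →+* ℂ) → ℝ) (Φ : ∀ i, Set (K i →+* ℂ)) (a : ℕ) (π : ∀ i, K i)
    (ℓ : ℕ) [Fact ℓ.Prime] : Prop :=
  ∀ (Γ J : Type) [Group Γ] [TopologicalSpace Γ] [IsTopologicalGroup Γ] [CompactSpace Γ]
    [Fintype J] [DecidableEq J] (n : J → ℕ) (ρ : Reps Γ n ℓ) (𝔤 : EndSpace n ℓ)
    (χ : Γ →* ℚ_[ℓ]) (ω : Form n ℓ),
    IsOfType ν a K M Φ π → IsRealization ρ 𝔤 χ ω → HasFrobenius ρ χ p a π → MumfordTate ρ 𝔤

/-- The Mumford-Tate conjecture for all abelian varieties with a Frobenius element whose
characteristic polynomial is the product of the minimal polynomials of Weil numbers with the slope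
types `Φ i`, `M i`, for all prime numbers `ℓ`. -/
def Holds {p : ℕ} [Fact p.Prime] (ν : PadicAlgCl p ≃+* ℂ) {I : Type} [Fintype I]
    (K : I → Type) [∀ i, Field (K i)] [∀ i, NumberField (K i)] [∀ i, IsCMField (K i)]
    (M : ∀ i, (K i →+* ℂ) → ℝ) (Φ : ∀ i, Set (K i →+* ℂ)) : Prop :=
  ∀ (a : ℕ) (π : ∀ i, K i) (ℓ : ℕ) [Fact ℓ.Prime], HoldsAt ν K M Φ a π ℓ

/-- The exceptional families of CM types. -/
def exceptionalFamilies {p : ℕ} [Fact p.Prime] (ν : PadicAlgCl p ≃+* ℂ) {I : Type} [Fintype I]
    (K : I → Type) [∀ i, Field (K i)] [∀ i, NumberField (K i)] [∀ i, IsCMField (K i)]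
    (M : ∀ i, (K i →+* ℂ) → ℝ) : Set (∀ i, Set (K i →+* ℂ)) :=
  {Φ | (∀ i, IsCMType (Φ i)) ∧ ¬ Holds ν K M Φ}

theorem holds_of_good {p : ℕ} [hp : Fact p.Prime] (ν : PadicAlgCl p ≃+* ℂ) {I : Type} [Fintype I]
    (K : I → Type) [∀ i, Field (K i)] [∀ i, NumberField (K i)] [∀ i, IsCMField (K i)]
    (M : ∀ i, (K i →+* ℂ) → ℝ) (Φ : ∀ i, Set (K i →+* ℂ)) (hG : V5helper84.SR.Good M Φ) :
    Holds ν K M Φ := by
  intro a π ℓ _ Γ J _ _ _ _ _ _ n ρ 𝔤 χ ω hT hR ⟨γ, hχ, hP⟩
  obtain ⟨κ, hκ, hs⟩ := hT.slopes
  have hC : CentreKills (sumRep ρ) 𝔤 := by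
    rcases hR.centre with hc | ⟨⟨γ', hγ'⟩, hh⟩
    · exact hc
    · refine V5helper84.QT.centre_of_weight ρ hR.semisimple hγ' fun z hz hzc => ?_
      obtain ⟨c, hc⟩ := hh z hz hzc
      refine ⟨c, fun x i => ?_⟩
      rw [hc x, Pi.smul_apply, Int.cast_one, mul_one]
  refine fun m φ => V5helper84.SR.tate_of_generic ρ hR.continuous hR.mumfordTate hR.semisimple
    hR.endomorphisms hC γ (hR.normalized γ) hR.polarization.nondegenerate (q := (p : ℚ) ^ a)
    (fun u v => ?_) hR.polarization.infinitesimal hP
    (V5helper84.SR.generic_of_good hG hs hκ hT.weil) m φ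
  rw [hR.polarization.similitudes, hχ]
  push_cast
  rfl

/-- **The Mumford-Tate conjecture for abelian varieties with a Frobenius element in almost all slope
types of all CM fields.** -/
theorem result (p : ℕ) [Fact p.Prime] (ν : PadicAlgCl p ≃+* ℂ) (I : Type) [Fintype I]
    (K : I → Type) [∀ i, Field (K i)] [∀ i, NumberField (K i)] [∀ i, IsCMField (K i)]
    (M : ∀ i, (K i →+* ℂ) → ℝ) (g : I → ℕ) (m : ℕ)
    (hM : ∀ i φ, M i (ComplexEmbedding.conjugate φ) = M i φ)
    (hg : ∀ i, finrank ℚ (K i) = 2 * g i)
    (hm : ∀ i, 8 * m ≤ {φ : K i →+* ℂ | M i φ ≠ 0}.ncard + 7) :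
    2 ^ m * (exceptionalFamilies ν K M).ncard ≤
      Fintype.card I * (2 * ∑ i, g i) ^ 3 * 2 ^ (∑ i, g i) :=
  V5helper84.SR.fam_count hg hM hm fun Φ _ hG => holds_of_good ν K M Φ hG

end Pool.Agent.Results.MP_33b3f9_ag.AlmostAllSlopeTypes
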