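import Pool.Agent.V5helper84.QT.Form

/-!
# The Mumford-Tate conjecture for `A` and the Tate classes of codimension two on `A^4`

Let `A` be an abelian variety over a finitely generated field of characteristic zero, with Galois
group `Γ`, isogenous to a product of abelian varieties `A_i` (`i ∈ ι`; there can be only one). `V` is
the sum of the spaces `V i = H^1(A_i, ℚ_ℓ)`, written as `ℚ_ℓ ^ (n i)`, with the actions `ρ i` of `Γ`, and
`𝔤` is the Lie algebra of the Mumford-Tate group of `A`, over `ℚ_ℓ`. By Deligne it has the properties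
which are collected in `IsMotivic` (starting library): it is a Lie algebra which respects the
decomposition, it is reductive, it consists of all endomorphisms which kill all tensors killed by `𝔤`,
and the tensors killed by `𝔤` (the `ℚ_ℓ`-combinations of Hodge classes) are Tate tensors, that is, fixed
by an open subgroup of `Γ`. `ω` is a polarization form on `V`: it is nondegenerate, `Γ` acts by
similitudes with the multiplier `χ`, and the elements of `𝔤` are infinitesimal similitudes. `V` is a
semisimple representation by Faltings.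

The Mumford-Tate conjecture for `A` (`MumfordTate`) says that the Tate tensors, in any number of
variables in `V` and its dual space, are exactly the tensors killed by `𝔤`; equivalently, all Tate
classes on all powers of `A` are combinations of Hodge classes, and the identity component of the
`ℓ`-adic monodromy group is the Mumford-Tate group.

`ClassesOnFourthPower` is the part of this about the Tate classes in the space
`H^1(A) ⊗ H^1(A) ⊗ H^1(A) ⊗ H^1(A) (2)`, which is a part of `H^4(A^4)(2)`: they are Hodge classes. So it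
is a statement about classes of codimension two on `A^4`. (In the Lean statement a class is a form
in four variables on `V`; we identify `V` with its dual space by `ω`, up to a twist.)

`Central` is the theorem that the Mumford-Tate conjecture is true for the centres (Serre, Vasiu,
Ullmo-Yafaev): the centre of `𝔤` kills all Tate tensors, or, the conjecture is true for the tensors which
are killed by the brackets of elements of `𝔤` (this is the conjecture for the part of CM type of the
category of motives generated by `A`).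

**Theorem.** Let `A` be any abelian variety over a finitely generated field of characteristic zero, and `ℓ`
any prime number. Then the following statements are equivalent:

* the Mumford-Tate conjecture for `A`: all Tate classes on all powers `A^n` are Hodge classes;
* the Tate classes of codimension two on `A^4` are Hodge classes (`ClassesOnFourthPower`);
* the Tate classes in `End (End V)` are Hodge classes (`Quartic`);
* the Lie algebra of the `ℓ`-adic monodromy group is normalized by the Mumford-Tate group (`Normal`; here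
  the theorem of Faltings on endomorphisms, `Endo`, is used).

In particular the Tate conjecture for the algebraic cycles of codimension two on `A^4` implies the
Mumford-Tate conjecture for `A`. If no simple factor of `A` is of type IV, the centre of the Mumford-Tate group
is the group of homotheties; then `Central` is not needed as a hypothesis (`Homotheties` and `Pure` are
sufficient, `Pure` is the theorem of Weil for one Frobenius element).

In the literature the Mumford-Tate conjecture is related to the Tate conjecture for cycles of all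
codimensions on all powers of `A`. It is known from invariant theory that some bounded
degree (depending on the possible groups) suffices; that the first degree which is not covered by the
theorem of Faltings always suffices seems to be new. The same argument for motives, without the results
of Faltings, is the hand-in `QuarticTensors` of the problem `MP_bbcdf5_ag`.

Proof. Let `L` be the Lie algebra of the endomorphisms which kill all Tate tensors. Then `L ≤ 𝔤`, the
trace form on `L` is nondegenerate and the orthogonal projection from `End V` to `L` commutes with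
`Γ`. By hypothesis it is a Hodge class, so `𝔤` normalizes `L`, and every element of `𝔤` is the sum
of an element of `L` and an endomorphism `Z` which commutes with `L`. Then `Z` commutes with an open subgroup
of `Γ`, so it is a Tate class and a Hodge class, and `Z` is in the centre of `𝔤`. By `Central`, `Z` kills all
Tate tensors, that is, `L = 𝔤`.
-/

open Module

noncomputable section

namespace Pool.Agent.Results.MP_33b3f9_ag.CodimensionTwo

open Pool.Agent.Y114.TF Pool.Agent.Y114.RM Pool.Agent.H204R3.GP Pool.Agent.R913.Adj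

/-! ### Representations and the Lie algebra of the Mumford-Tate group -/

section tate

variable {k V Γ : Type} [Field k] [AddCommGroup V] [Module k V] [Group Γ]
  (ρ : Representation k Γ V) (𝔤 : Submodule k (End k V))

/-- The Tate tensors are the tensors killed by `𝔤`. -/
def TateIsHodge : Prop :=
  ∀ (m : ℕ) (φ : Tensor k V m), TateTensor ρ φ ↔ ∀ X ∈ 𝔤, KillsTensor X φ

/-- Every form `φ` in four variables on `V` for which `φ (s v) = χ(s) ^ 2 φ v` for the elements `s`
of a subgroup of finite index of `Γ` is semi-invariant under the infinitesimal similitudes `X` in `𝔤`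
(of multiplier `c`): the sum of the forms `φ (…, X v_l, …)` is `2 c φ`. -/
def FourForms (χ : Γ →* k) (ω : V →ₗ[k] V →ₗ[k] k) : Prop :=
  ∀ φ : MultilinearMap k (fun _ : Fin 4 => V) k,
    (∃ Δ : Subgroup Γ, Δ.FiniteIndex ∧ ∀ s ∈ Δ, ∀ v, φ (fun l => ρ s (v l)) = χ s ^ 2 * φ v) →
    ∀ X ∈ 𝔤, ∀ c : k, (∀ u v, ω (X u) v + ω u (X v) = c * ω u v) →
      ∀ v, ∑ l, φ (Function.update v l (X (v l))) = 2 * c * φ v

/-- Every linear map `p : End V → End V` which commutes with the conjugations by the elements of a
subgroup of finite index of `Γ` commutes with the brackets with the elements of `𝔤`. -/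
def QuarticTate : Prop := ∀ p : End k V →ₗ[k] End k V,
  (∃ Δ : Subgroup Γ, Δ.FiniteIndex ∧ ∀ γ ∈ Δ, ∀ Y, p (ρ γ * Y * ρ γ⁻¹) = ρ γ * p Y * ρ γ⁻¹) →
    ∀ X ∈ 𝔤, ∀ Y, p (X * Y - Y * X) = X * p Y - p Y * X

/-- An endomorphism which commutes with a subgroup of finite index of `Γ` commutes with `𝔤`. -/
def EndTate : Prop := ∀ P : End k V,
  (∃ Δ : Subgroup Γ, Δ.FiniteIndex ∧ ∀ γ ∈ Δ, P * ρ γ = ρ γ * P) → ∀ X ∈ 𝔤, X * P = P * X

/-- If `Y` kills all Tate tensors then so does `[X, Y]` for every `X` in `𝔤`. -/
def Normalized : Prop := ∀ X ∈ 𝔤, ∀ Y : End k V,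
  (∀ (m : ℕ) (φ : Tensor k V m), TateTensor ρ φ → KillsTensor Y φ) →
    ∀ (m : ℕ) (φ : Tensor k V m), TateTensor ρ φ → KillsTensor (X * Y - Y * X) φ

/-- The central elements of `𝔤` kill all Tate tensors. -/
def CentreKills : Prop := ∀ z ∈ 𝔤, (∀ X ∈ 𝔤, z * X = X * z) →
  ∀ (m : ℕ) (φ : Tensor k V m), TateTensor ρ φ → KillsTensor z φ

/-- The Tate tensors which are killed by the brackets of elements of `𝔤` are killed by `𝔤`. -/
def AbelianTate : Prop := ∀ (m : ℕ) (φ : Tensor k V m), TateTensor ρ φ →
  (∀ X ∈ 𝔤, ∀ Y ∈ 𝔤, KillsTensor (X * Y - Y * X) φ) → ∀ X ∈ 𝔤, KillsTensor X φ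

/-- The central elements of `𝔤` are the homotheties. -/
def Homotheties : Prop := ∀ z ∈ 𝔤, (∀ X ∈ 𝔤, z * X = X * z) → ∃ c : k, ∀ x, z x = c • x

/-- `ω` is a polarization form: it is nondegenerate, `Γ` acts by similitudes with the multiplier `χ`,
and the elements of `𝔤` are infinitesimal similitudes. -/
structure Polarization (χ : Γ →* k) (ω : V →ₗ[k] V →ₗ[k] k) : Prop where
  nondegenerate : ∀ u, (∀ v, ω u v = 0) → u = 0
  similitudes : ∀ s u v, ω (ρ s u) (ρ s v) = χ s * ω u v
  infinitesimal : ∀ X ∈ 𝔤, ∃ c : k, ∀ u v, ω (X u) v + ω u (X v) = c * ω u v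

end tate

section props

variable (Γ : Type) [Group Γ] {ι : Type} (n : ι → ℕ) (ℓ : ℕ) [Fact ℓ.Prime]

/-- Representations of `Γ` on the spaces `ℚ_ℓ ^ (n i)`. -/
abbrev Reps : Type := ∀ i, Representation ℚ_[ℓ] Γ (Fin (n i) → ℚ_[ℓ])

/-- Spaces of endomorphisms of the direct sum of the spaces `ℚ_ℓ ^ (n i)`. -/
abbrev EndSpace : Type := Submodule ℚ_[ℓ] (End ℚ_[ℓ] (∀ i, Fin (n i) → ℚ_[ℓ]))

/-- Bilinear forms on the direct sum of the spaces `ℚ_ℓ ^ (n i)`. -/
abbrev Form : Type := (∀ i, Fin (n i) → ℚ_[ℓ]) →ₗ[ℚ_[ℓ]] (∀ i, Fin (n i) → ℚ_[ℓ]) →ₗ[ℚ_[ℓ]] ℚ_[ℓ]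

variable {Γ n ℓ} (ρ : Reps Γ n ℓ) (𝔤 : EndSpace n ℓ)

/-- The representations are continuous. -/
def Conts [TopologicalSpace Γ] : Prop := ∀ i, Continuous fun g => LinearMap.toMatrix' (ρ i g)

/-- Some element of `Γ` acts purely of weight one: its characteristic polynomials are
rational, with all roots of absolute value `q ^ (1 / 2)` for some `q > 1`. -/
def Pure : Prop := ∃ γ : Γ, ActsPurely ρ (fun _ => 1) γ

variable [Fintype ι] [DecidableEq ι]

/-- `𝔤` has the properties of the Lie algebra of the Mumford-Tate group (see `IsMotivic`). -/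
def IsMumfordTateLie : Prop := IsMotivic ρ 𝔤

/-- `V` is semisimple as a representation of every subgroup of finite index. -/
def Semisimple : Prop := FiniteIndexSemisimple (sumRep ρ)

/-- The Mumford-Tate conjecture (see `TateIsHodge`). -/
def MumfordTate : Prop := TateIsHodge (sumRep ρ) 𝔤

/-- The Tate classes in `H^1(A)^{⊗ 4}(2)` are combinations of Hodge classes (see `FourForms`). -/
def ClassesOnFourthPower (χ : Γ →* ℚ_[ℓ]) (ω : Form n ℓ) : Prop := FourForms (sumRep ρ) 𝔤 χ ω

/-- The Tate classes in `V ⊗ V^∨ ⊗ V ⊗ V^∨` are combinations of Hodge classes (see `QuarticTate`). -/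
def Quartic : Prop := QuarticTate (sumRep ρ) 𝔤

/-- The Tate classes in `V ⊗ V^∨` are combinations of Hodge classes (see `EndTate`). -/
def Endo : Prop := EndTate (sumRep ρ) 𝔤

/-- The Lie algebra of the Tate tensors is normalized by `𝔤` (see `Normalized`). -/
def Normal : Prop := Normalized (sumRep ρ) 𝔤

/-- The Mumford-Tate conjecture for the centre (see `CentreKills`), or for the CM part (see
`AbelianTate`). -/
def Central : Prop := CentreKills (sumRep ρ) 𝔤 ∨ AbelianTate (sumRep ρ) 𝔤

end props

/-- **Theorem.** The Mumford-Tate conjecture for an abelian variety `A` is equivalent to the statement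
that the Tate classes of codimension two on `A^4` (in the fourth tensor power of `H^1`) are
combinations of Hodge classes, and to the statement that the Lie algebra of the `ℓ`-adic monodromy
group is normalized by the Mumford-Tate group. -/
theorem result {Γ : Type} [Group Γ] [TopologicalSpace Γ] [IsTopologicalGroup Γ] [CompactSpace Γ]
    {ι : Type} [Fintype ι] [DecidableEq ι] {n : ι → ℕ} {ℓ : ℕ} [Fact ℓ.Prime]
    (ρ : Reps Γ n ℓ) (hρ : Conts ρ) (𝔤 : EndSpace n ℓ) (h𝔤 : IsMumfordTateLie ρ 𝔤)
    (χ : Γ →* ℚ_[ℓ]) (ω : Form n ℓ) (hω : Polarization (sumRep ρ) 𝔤 χ ω)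
    (hss : Semisimple ρ) (hc : Central ρ 𝔤 ∨ (Pure ρ ∧ Homotheties 𝔤)) :
    (MumfordTate ρ 𝔤 ↔ ClassesOnFourthPower ρ 𝔤 χ ω) ∧
      (MumfordTate ρ 𝔤 ↔ Quartic ρ 𝔤) ∧
      (MumfordTate ρ 𝔤 ↔ Endo ρ 𝔤 ∧ Normal ρ 𝔤) := by
  have hC : Central ρ 𝔤 := by
    rcases hc with hc | ⟨⟨γ, hγ⟩, hh⟩
    · exact hc
    · refine Or.inl (V5helper84.QT.centre_of_weight ρ hss hγ fun z hz hzc => ?_)
      obtain ⟨c, hc⟩ := hh z hz hzc
      refine ⟨c, fun x i => ?_⟩
      rw [hc x, Pi.smul_apply, Int.cast_one, mul_one]
  have hχ : ∀ s, χ s ≠ 0 := by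
    intro s hs
    have h1 : χ (s * s⁻¹) = 0 := by rw [map_mul, hs, zero_mul]
    rw [mul_inv_cancel, map_one] at h1
    exact one_ne_zero h1
  have k1 : MumfordTate ρ 𝔤 → ClassesOnFourthPower ρ 𝔤 χ ω := fun h =>
    V5helper84.QT.four_of_tate hω.nondegenerate hχ hω.similitudes fun m φ hφ => (h m φ).1 hφ
  have k2 : ClassesOnFourthPower ρ 𝔤 χ ω → Quartic ρ 𝔤 := fun h =>
    V5helper84.QT.quartic_of_four hω.nondegenerate hω.similitudes hω.infinitesimal h
  have k3 : Quartic ρ 𝔤 → Endo ρ 𝔤 ∧ Normal ρ 𝔤 := fun h =>
    ⟨V5helper84.QT.Quartic.endo h, V5helper84.QT.normal_of_quartic ρ h𝔤 hss h⟩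
  have k4 : Endo ρ 𝔤 ∧ Normal ρ 𝔤 → MumfordTate ρ 𝔤 := fun h =>
    V5helper84.QT.tate_of_normal ρ hρ h𝔤 hss h.1 hC h.2
  exact ⟨⟨k1, fun h => k4 (k3 (k2 h))⟩, ⟨fun h => k2 (k1 h), fun h => k4 (k3 h)⟩,
    ⟨fun h => k3 (k2 (k1 h)), k4⟩⟩

end Pool.Agent.Results.MP_33b3f9_ag.CodimensionTwo
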