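import Mathlib
import Pool.Agent.Q29.EP.RowsCT
import Pool.Agent.TH170.FT.MT

/-!
# The Mumford-Tate conjecture for abelian varieties with a Frobenius element in one half of all slope
types of every CM field of degree `2 r ^ k`

Let `A` be an abelian variety over a number field (or a finitely generated subfield of the complex
numbers), of any dimension and with arbitrary endomorphisms, which has good reduction at some place
`v`, with a residue field of `p ^ a` elements. Suppose that the characteristic polynomial of the
Frobenius element at `v` is the product of the minimal polynomials of Weil numbers `π i` that generate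
CM fields `K i` of degree `2 g i` (`HasFrobenius`); so `dim A = ∑ i, g i`. Nothing is assumed about
the Galois groups of the fields `K i`; they are pairwise independent: for `i ≠ k` and all complex
embeddings `φ` of `K i` and `ψ` of `K k` some automorphism of `ℂ` is the identity on `φ (K i)` and
the complex conjugation on `ψ (K k)` (this is no condition if there is only one field).

We fix an isomorphism `ν` of the algebraic closure of `ℚ_p` with `ℂ`; it defines a `p`-adic valuation
of `ℂ`, with the value one at `p`. Let `M i` be a function with integral values on the complex
embeddings of `K i`, invariant under complex conjugation (the weights). A CM type `Φ i` of `K i` (a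
choice of one element out of each complex conjugate pair of embeddings; there are `2 ^ (g i)` types),
`M i` and a real number `κ ≠ 0` prescribe the slopes `(a + κ M) / 2` (at the embeddings in `Φ i`) and
`(a - κ M) / 2` (outside of `Φ i`) of a Weil number in `K i` (`IsOfType`). If `p` splits completely in
`K i` then, by Honda and Tate, all slopes with rational values between `0` and `a` that are symmetric
in this way occur for abelian varieties over finite fields. The case `M = 1`, `κ = a` is the case of
ordinary reduction.

**The property of the slope types** (`Q`, `Holds`): for all abelian varieties `A` as above with Weil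
numbers `π i` of the slope types `Φ i`, and all prime numbers `ℓ`, all Tate classes in the tensor
powers of `H^1` (and so in the cohomology of all powers of `A`) are linear combinations of Hodge
classes, and even of products of Hodge classes of degree two (`MumfordTateStrong`). Together with the
theorem of Deligne (Hodge classes are Tate classes) this is the equality of the Mumford-Tate group
(over `ℚ_ℓ`) and of the connected component of the `ℓ`-adic monodromy group: both are reductive, so
that they are determined by their invariants in the spaces `(H^1)^{⊗ 2 m}(m)`. So **the Mumford-Tate
conjecture holds for `A`**, and the Hodge and the Tate conjecture hold for all powers of `A`.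

In the formal statement (`IsRealization`) `W` is `H_1(A, ℚ)`, `T` the tangent space at the origin and
`per : W → T` the inclusion, `ω₀` is the form given by a polarization; `V` is the rational Tate module
with the comparison map `comp : W → V`, the action `ρ` of the Galois group and the Weil pairing `ω`;
`χ` is the cyclotomic character. The theorems of Faltings on endomorphisms and on semisimplicity are
part of the data. This is the framework of the starting files `AllCMFields` and
`AlmostAllFrobeniusTypes` in this folder.

**The theorem.** Let `E` be **any CM field of degree `2 g = 2 r ^ k`**, `r` a prime number, of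
degree at least `16` if `r = 2`. Nothing is assumed about the Galois group of the normal closure of
`E`, and nothing about the subfields of `E`.

* (`HalfOfAll`) For all weights `M` (odd if `r = 2`; if `r` is odd then `r` may divide some, but not
  all of them) the property `Q` is true for **at least one half of all `2 ^ g` types** of `E`.
* (`MostWithWeightsOne`) For the weights `M = 1` (for instance in the ordinary case) it is true for
  at least `(1 - 1 / r) 2 ^ g` of the types.
* (`OneOfTwo`) There is a set `B` of embeddings of `E`, stable under complex conjugation, such that
  for **every** type `Φ` it is true for `Φ` or for the symmetric difference of `Φ` and `B`.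
* (`SixteenPercent`) There is a number `g₀` such that for every CM field that is **abelian over
  `ℚ`**, of any degree `2 g ≥ 2 g₀`, and all odd weights it is true for at least 16 percent of all
  `2 ^ g` types; again nothing is assumed on the subfields.

All this is proved for finitely many pairwise independent fields `K i`; the proportions are then
multiplied.

**What is new.** The starting files `AlmostAllFrobeniusTypes` and `AllCMFields` bound the number of
the exceptional families by `2 ^ (∑ g i) ∑ ρ (K i)` and `2 ^ (∑ g i) ∑ C (n i) ^ 2 rate (K i)`, for
weights without zeros. The first bound says nothing if `ρ (K)` is at least one, and this is so for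
fields with many small CM subfields (an imaginary quadratic subfield contributes about `√(2 / (π g))`,
and a multiquadratic field has `g` of them); `rate (K)` is `(1 + log (2 g)) ^ 16` times the smaller of
`W (K) / √g`, where `W (K)` grows with the number of the CM subfields, and `√g / q`, `q` a prime factor
of `g`. So they say nothing for many fields of degree `2 r ^ k`. The comment of `AllCMFields` says by
mistake that almost all types of the multiquadratic fields are degenerate, but exactly one half of
them is, up to a proportion `O (g ^ (-1 / 2))`. Here the proportion is one half for **all** fields of
degree `2 r ^ k`, in every such degree, and for odd `r` some of the weights may be zero, that is, the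
slope `a / 2` may occur. The theorems on the types without relations (`Pool.Agent.Q29.DP`,
`Pool.Agent.Q29.EP`) are those of the starting files, where they are applied to the conjecture of
Parshin (`HalfOfAllTimes` in MP_de59b4_ag) only.

**The proof.** If there are relations between the conjugates of the Weil numbers that are not
generated by those of the complex conjugate pairs, then for one of the types
`∑ n φ * e (σ φ) = 0` for all automorphisms `σ` of `ℂ`, where `e = ± M` are the signed weights and
`n ≠ 0` is an integral function with `n (conj φ) = - n φ`. Let `P` be a Sylow `r`-subgroup of the
Galois group of the normal closure and `R` the lattice of the relations for all `σ` in `P`. If `R ≠ 0`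
then it contains an element `n`, not in `r R`, which is fixed modulo `r R` by `P`. If `r` is odd then
`P` has two orbits on the set of the embeddings, and `n` is constant modulo `r` on an orbit `O`; so
the sum of `e` over `O` is divisible by `r`, and it is not after a change of the type at one place.
For `M = 1` this happens for less than `2 ^ g / r` of the types. For `r = 2` see `HalfOfAllTimes` in
MP_de59b4_ag. If there are no such relations then the Zariski closure of the group generated by the
Frobenius element contains a maximal torus of the Mumford-Tate group that has only the
invariants generated by degree two, on all tensor powers, and the theorem of Faltings gives the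
conjecture (`Pool.Agent.TH170.FT`).
-/

set_option autoImplicit false

namespace Pool.Agent.Results.MP_33b3f9_ag.HalfOfAllTypes

open NumberField Module Pool.Agent.H204R3.CM Pool.Agent.H977R3.CM Pool.Agent.TH170
  Pool.Agent.Q29.EP

open Pool.Agent.H204R3.GP

open Pool.Agent.Q29.DP (notMem_degTypes_of_noRelations)

/-- The Mumford-Tate conjecture for the abelian varieties with a Frobenius element whose characteristic
polynomial is the product of the minimal polynomials of Weil numbers `π i` for `p ^ a` with the slope
types `Φ i`, `M i`, for the prime number `ℓ`. -/
def HoldsAt {p : ℕ} [Fact p.Prime] (ν : PadicAlgCl p ≃+* ℂ) {I : Type} [Fintype I]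
    (K : I → Type) [∀ i, Field (K i)] [∀ i, NumberField (K i)] [∀ i, IsCMField (K i)]
    (M : ∀ i, (K i →+* ℂ) → ℤ) (Φ : ∀ i, Set (K i →+* ℂ)) (a : ℕ) (π : ∀ i, K i)
    (ℓ : ℕ) [Fact ℓ.Prime] : Prop :=
  ∀ (W T V Γ : Type) [AddCommGroup W] [Module ℚ W] [AddCommGroup T] [Module ℂ T]
    [AddCommGroup V] [Module ℚ_[ℓ] V] [FiniteDimensional ℚ_[ℓ] V] [Group Γ]
    (per : W →+ T) (ω₀ : W →ₗ[ℚ] W →ₗ[ℚ] ℚ) (comp : W →+ V) (ρ : Representation ℚ_[ℓ] Γ V)
    (χ : Γ →* ℚ_[ℓ]) (ω : V →ₗ[ℚ_[ℓ]] V →ₗ[ℚ_[ℓ]] ℚ_[ℓ]),
    FT.IsOfType ν a K M Φ π → FT.IsRealization per ω₀ comp ρ χ ω →
      FT.HasFrobenius ρ χ p a π → MumfordTateStrong per comp ρ χ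

/-- The Mumford-Tate conjecture for all abelian varieties with a Frobenius element whose
characteristic polynomial is the product of the minimal polynomials of Weil numbers with the slope
types `Φ i`, `M i`, for all prime numbers `ℓ`. -/
def Holds {p : ℕ} [Fact p.Prime] (ν : PadicAlgCl p ≃+* ℂ) {I : Type} [Fintype I]
    (K : I → Type) [∀ i, Field (K i)] [∀ i, NumberField (K i)] [∀ i, IsCMField (K i)]
    (M : ∀ i, (K i →+* ℂ) → ℤ) (Φ : ∀ i, Set (K i →+* ℂ)) : Prop :=
  ∀ (a : ℕ) (π : ∀ i, K i) (ℓ : ℕ) [Fact ℓ.Prime], 0 < a → HoldsAt ν K M Φ a π ℓ

/-- The property of the slope types `Φ i` with the weights `M i`. -/
def Q : TypeProperty := fun _ _ ν _ _ K _ _ _ M Φ => Holds ν K M Φ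

theorem without_relations : WithoutRelations Q := by
  intro p _ ν I _ K _ _ _ M Φ hind hMc hΦ hno
  exact fun _ _ _ _ ha _ _ _ _ _ _ _ _ _ _ _ _ _ _ _ _ _ _ hπ hR hF =>
    FT.mumfordTate_of_types hind hMc hΦ (fun i => notMem_degTypes_of_noRelations (hno i)) ha hπ hR
      hF

/-- **The Mumford-Tate conjecture for abelian varieties with a Frobenius element in one half of all
slope types of every CM field of degree `2 r ^ k`.** -/
theorem result : HalfOfAll Q ∧ MostWithWeightsOne Q ∧ OneOfTwo Q ∧ SixteenPercent Q :=
  ⟨halfOfAll without_relations, mostWithWeightsOne without_relations,
    oneOfTwo without_relations, sixteenPercent without_relations⟩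

end Pool.Agent.Results.MP_33b3f9_ag.HalfOfAllTypes
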