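import Mathlib
import Pool.Agent.V5helper90.NS.MT

/-!
# The Mumford-Tate conjecture for abelian varieties with one Frobenius polynomial in almost all of any
Newton stratum

Let `p` be a prime number, `κ` a finite set and `g i`, `i ∈ κ`, positive numbers. For each `i` we fix
a symmetric Newton polygon `s i` of height `2 g i` (`IsNewtonPolygon`; the slopes are `s i j` and
`1 - s i j`, `j < g i`, and the break points are integral) that is not supersingular. The set
`Stratum g s p a` consists of the families `(P i)` of Frobenius polynomials (`IsFrobPoly`) of
abelian varieties of dimension `g i` over the field with `q = p ^ a` elements with the Newton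
polygons `s i`; by Honda and Tate these are the families of isogeny classes with these polygons.

**The theorem.** For every `ε > 0` and every `N` and all large `a` the set `Stratum g s p a` is finite
with at least `N` elements, and for all families `(P i)` in it but at most `ε * #Stratum g s p a` the
Mumford-Tate conjecture holds for **all** abelian varieties `A` over number fields (or over finitely
generated subfields of the complex numbers), of dimension `∑ i, g i` and with arbitrary
endomorphisms, which have good reduction at some place with a residue field of `p ^ a` elements at
which the characteristic polynomial of the Frobenius element is `∏ i, P i`, and for all prime numbers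
`ℓ` (`MumfordTateFor`). For example `κ` has one element: then the condition is that the reduction at one
place lies in one of the isogeny classes of the exceptional set's complement, which contains 100% of the
isogeny classes of abelian varieties with the given Newton polygon, of each dimension and each Newton
polygon which is not supersingular. If `κ` has several elements the reduction is isogenous to a product
of different abelian varieties with given Newton polygons.

The conclusion is strong (`MumfordTateStrong`): all Tate classes in the tensor powers of `H^1` (and so
in the cohomology of all powers of `A`) are linear combinations of Hodge classes, and even of products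
of Hodge classes of degree two. Together with the theorem of Deligne (Hodge classes are Tate classes)
this is the equality of the Mumford-Tate group (over `ℚ_ℓ`) and of the connected component of the
`ℓ`-adic monodromy group: both are reductive, so that they are determined by their invariants in the
spaces `(H^1)^{⊗ 2 m}(m)`. So the Mumford-Tate conjecture holds for `A`, and the Hodge and the Tate
conjecture hold for all powers of `A`.

In the formal statement (`IsRealization`) `W` is `H_1(A, ℚ)`, `T` the tangent space at the origin and
`per : W → T` the inclusion, `ω₀` is the form given by a polarization; `V` is the rational Tate module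
with the comparison map `comp : W → V`, the action `ρ` of the Galois group and the Weil pairing `ω`;
`χ` is the cyclotomic character. The theorems of Faltings on endomorphisms and on semisimplicity are
part of the data. This is the framework of the starting files `AllCMFields` and
`AlmostAllFrobeniusTypes` in this folder.

**What is new.** That a place at which the Frobenius eigenvalues have no multiplicative relations (the
angle rank is maximal) implies the conjecture is well known in various forms (Serre, Zarhin, Larsen and
Pink); in this form it is in the starting files, and so are bounds for the number of the slope types of
a given CM field for which there are no relations (`AllCMFields`, `AlmostAllFrobeniusTypes`). They say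
nothing on the number of isogeny classes over a finite field with this property. Here it is proved
that 100% of the isogeny classes (and of the families of isogeny classes) in each Newton stratum that is
not supersingular have the property, for all `g i ≥ 1`, for `p` fixed and `a → ∞`.

**The proof.** The counting is the one of the starting files `Pool.Agent.W518.DN` (the Frobenius
polynomials of a Newton stratum are the points of translates of lattices in a convex body, and their
reductions modulo the primes `ℓ ≠ p` are equidistributed): for 100% of the families some primes have
prescribed decomposition laws. We deduce (`density_flips`) that the real Weil polynomials are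
irreducible, and that for each pair `z`, `q / z` of roots of `P i` some automorphism of `ℂ` exchanges
these two numbers and fixes all other roots of all the polynomials `P k` (a flip). Since the polygon is
not supersingular no power of a root is a power of `q` (`pow_ne`); and the members of 100% of the
families are different (`density_inj`). So the roots generate CM fields (`isCM_complex`), the `P i` are the
minimal polynomials of their roots, and the roots have no multiplicative relations except those
given by `z * (q / z) = q`: apply a flip to a relation and divide (`angle`). If there are no such
relations then the Zariski closure of the group generated by the Frobenius element contains a maximal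
torus of the Lefschetz group that has only the invariants generated by degree two, on all tensor
powers, and the theorem of Faltings gives the conjecture (`Pool.Agent.TH170.FT`).
-/

set_option autoImplicit false

namespace Pool.Agent.Results.MP_33b3f9_ag.NewtonStrata

open Polynomial Pool.Agent.V5helper90.NS Pool.Agent.H204R3.GP Pool.Agent.TH170

/-- Some element `γ` of the Galois group is a Frobenius element with the characteristic polynomial
`∏ i, P i`: the value of the cyclotomic character at `γ` is `q`, and the characteristic polynomial of
`ρ γ` is the product of the polynomials `P i`. -/
def HasFrobenius {ℓ : ℕ} [Fact ℓ.Prime] {V Γ : Type} [AddCommGroup V] [Module ℚ_[ℓ] V]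
    [FiniteDimensional ℚ_[ℓ] V] [Group Γ] (ρ : Representation ℚ_[ℓ] Γ V) (χ : Γ →* ℚ_[ℓ]) (q : ℕ)
    {κ : Type} [Fintype κ] (P : κ → ℤ[X]) : Prop :=
  ∃ γ : Γ, χ γ = (q : ℚ_[ℓ]) ∧ (ρ γ).charpoly = ∏ i, (P i).map (Int.castRingHom ℚ_[ℓ])

/-- The Mumford-Tate conjecture holds for all abelian varieties (over number fields or finitely
generated subfields of `ℂ`) with a Frobenius element, for a residue field with `q` elements, with the
characteristic polynomial `∏ i, P i`, and all prime numbers `ℓ`. -/
def MumfordTateFor (q : ℕ) {κ : Type} [Fintype κ] (P : κ → ℤ[X]) : Prop :=
  ∀ (ℓ : ℕ) [Fact ℓ.Prime] (W T V Γ : Type) [AddCommGroup W] [Module ℚ W] [AddCommGroup T]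
    [Module ℂ T] [AddCommGroup V] [Module ℚ_[ℓ] V] [FiniteDimensional ℚ_[ℓ] V] [Group Γ]
    (per : W →+ T) (ω₀ : W →ₗ[ℚ] W →ₗ[ℚ] ℚ) (comp : W →+ V) (ρ : Representation ℚ_[ℓ] Γ V)
    (χ : Γ →* ℚ_[ℓ]) (ω : V →ₗ[ℚ_[ℓ]] V →ₗ[ℚ_[ℓ]] ℚ_[ℓ]),
    FT.IsRealization per ω₀ comp ρ χ ω → HasFrobenius ρ χ q P → MumfordTateStrong per comp ρ χ

/-- **The Mumford-Tate conjecture for all abelian varieties with one Frobenius polynomial among 100%
of the families in any Newton stratum that is not supersingular.** -/
theorem result {κ : Type} [Fintype κ] [Nonempty κ] (p : ℕ) [Fact p.Prime]
    (g : κ → ℕ) (hg : ∀ i, 1 ≤ g i) (s : ∀ i, Fin (g i) → ℚ) (hs : ∀ i, IsNewtonPolygon (s i))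
    (hss : ∀ i, ∃ j, s i j < 1 / 2) (N : ℕ) (ε : ℝ) (hε : 0 < ε) :
    ∃ a₀ : ℕ, ∀ a, a₀ ≤ a →
      (Stratum g s p a).Finite ∧ N ≤ (Stratum g s p a).ncard ∧
      ({P ∈ Stratum g s p a | ¬ MumfordTateFor (p ^ a) P}.ncard : ℝ) ≤
        ε * ((Stratum g s p a).ncard : ℝ) := by
  refine density_inj p g hg s hs hss N ε hε (fun a P => MumfordTateFor (p ^ a) P) ?_
  intro a P ha _ h hinj
  exact fun _ _ _ _ _ _ _ _ _ _ _ _ _ _ _ _ _ _ _ _ hR hF =>
    mumfordTate_of_nice hg ha h hinj hR hF

end Pool.Agent.Results.MP_33b3f9_ag.NewtonStrata
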